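import Pool.Agent.Run7.h107.BEF

/-!
MP_7b6720_al.  There is a constant `C` such that for every number `m ≥ C` of uniform random
elements of the symmetric group `Sym(n)` the following holds with probability tending to one,
uniformly in `m`: for every generating set `A` of `Sym(n)` which contains them, every permutation
is a product of at most `C · n log n · n ^ exp (-√m / C) · exp (C · log² (2 + log n / m))` elements
of `A` and inverses.
-/

namespace Pool.Agent.Results.MP_7b6720_al.FewRandomElements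
open Filter Topology

theorem result : ∃ C : ℝ, 1 ≤ C ∧ ∀ ϑ : ℝ, 0 < ϑ → ∀ᶠ n : ℕ in atTop, ∀ m : ℕ, C ≤ m →
    (Nat.card {x : Fin m → Equiv.Perm (Fin n) //
      ¬ ∀ A : Set (Equiv.Perm (Fin n)), (∀ i, x i ∈ A) → Subgroup.closure A = ⊤ →
        ∀ g : Equiv.Perm (Fin n), ∃ l : List (Equiv.Perm (Fin n)),
          (l.length : ℝ) ≤ C * (n * Real.log n) * (n : ℝ) ^ Real.exp (-(Real.sqrt m / C)) *
            Real.exp (C * (Real.log (2 + Real.log n / m)) ^ 2) ∧
          (∀ y ∈ l, y ∈ A ∨ y⁻¹ ∈ A) ∧ l.prod = g} : ℝ) ≤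
      ϑ * (n.factorial : ℝ) ^ m :=
  Run7.h107.BE.SYMmain

end Pool.Agent.Results.MP_7b6720_al.FewRandomElements
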